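import Pool.Agent.K3h16.FG.Stm

/-!
# Potentials and reduction of configurations: the statements POT and RED
-/

set_option autoImplicit false

namespace Pool.Agent.K3h33.FG

open Pool.Agent.K3h16.FG Pool.Agent.R920.WC

theorem t_POT : S_POT := by
  intro ι _ a ℓ I Z hZ hcl
  classical
  let P : Finset ι → Prop := fun U => U ⊆ I ∧ Z ⊆ U ∧ ∃ W : ι → ℕ, (∀ i, 0 < W i) ∧
    ∀ i ∈ U, i ∉ Z → ∀ m, Rel a ℓ I i m → ∃ k ∈ U, m k ≠ 0 ∧ k ≠ i ∧ ℓ i * W i < W k
  have h0 : P Z := ⟨hZ, Finset.Subset.refl _, fun _ => 1, fun _ => one_pos,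
    fun i hi hne => absurd hi hne⟩
  obtain ⟨U, hU, hmax⟩ : ∃ U, P U ∧ ∀ U', P U' → U'.card ≤ U.card := by
    have hfin : {n | ∃ U, P U ∧ U.card = n}.Finite := by
      refine Set.Finite.subset (Set.finite_le_nat I.card) ?_
      rintro n ⟨U, hU, rfl⟩
      exact Finset.card_le_card hU.1
    obtain ⟨n, ⟨U, hU, rfl⟩, hn⟩ := hfin.exists_maximal ⟨_, Z, h0, rfl⟩
    refine ⟨U, hU, fun U' hU' => ?_⟩
    by_contra hlt
    push Not at hlt
    have := hn ⟨U', hU', rfl⟩ hlt.le
    omega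
  obtain ⟨hUI, hZU, W, hW, hprop⟩ := hU
  by_cases hUeq : U = I
  · subst hUeq
    refine ⟨W, fun i hi m hm => ?_⟩
    obtain ⟨k, hk, hmk, -, hlt⟩ := hprop i (Finset.mem_sdiff.1 hi).1 (Finset.mem_sdiff.1 hi).2 m hm
    have h1 : m k * W k ≤ dg W U m := le_dg W U m hk
    have h2 : W k ≤ m k * W k := Nat.le_mul_of_pos_left _ (Nat.pos_of_ne_zero hmk)
    omega
  · exfalso
    have hne : (I \ U).Nonempty := by
      rw [Finset.sdiff_nonempty]
      intro h
      exact hUeq (Finset.Subset.antisymm hUI h)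
    have hnc := hcl (I \ U) (Finset.sdiff_subset_sdiff (Finset.Subset.refl _) hZU)
    obtain ⟨i, hi, hno⟩ : ∃ i ∈ I \ U, ∀ m, ¬ Rel a ℓ (I \ U) i m := by
      by_contra h
      push Not at h
      exact hnc ⟨hne, h⟩
    have hiI := (Finset.mem_sdiff.1 hi).1
    have hiU' := (Finset.mem_sdiff.1 hi).2
    -- every relation at `i` meets `U`
    have hmeet : ∀ m, Rel a ℓ I i m → ∃ k ∈ U, m k ≠ 0 := by
      intro m hm
      by_contra h
      push Not at h
      refine hno m ⟨?_, ?_⟩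
      · rw [← hm.1]
        refine Finset.sum_subset Finset.sdiff_subset fun k hk hk' => ?_
        have hkU : k ∈ U := by
          by_contra h'
          exact hk' (Finset.mem_sdiff.2 ⟨hk, h'⟩)
        rw [h k hkU, zero_mul]
      · obtain ⟨k, hk, hki, hmk⟩ := hm.2
        exact ⟨k, Finset.mem_sdiff.2 ⟨hk, fun h' => hmk (h k h')⟩, hki, hmk⟩
    have hP : P (insert i U) := by
      refine ⟨Finset.insert_subset hiI hUI, hZU.trans (Finset.subset_insert _ _),
        fun x => if x = i then 1 else (ℓ i + 1) * W x, ?_, ?_⟩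
      · intro x
        by_cases hx : x = i
        · simp [hx]
        · simp only [hx, if_false]
          exact Nat.mul_pos (Nat.succ_pos _) (hW x)
      · intro x hx hx0 m hm
        by_cases hxi : x = i
        · subst hxi
          obtain ⟨k, hkU', hmk⟩ := hmeet m hm
          have hkx : k ≠ x := fun h => hiU' (h ▸ hkU')
          refine ⟨k, Finset.mem_insert_of_mem hkU', hmk, hkx, ?_⟩
          simp only [hkx, if_false, if_true, mul_one]
          have := hW k
          nlinarith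
        · have hxU : x ∈ U := (Finset.mem_insert.1 hx).resolve_left hxi
          obtain ⟨k', hk', hM', hne'', hlt⟩ := hprop x hxU hx0 m hm
          have hk'i : k' ≠ i := fun h => hiU' (h ▸ hk')
          refine ⟨k', Finset.mem_insert_of_mem hk', hM', hne'', ?_⟩
          simp only [hxi, hk'i, if_false]
          calc ℓ x * ((ℓ i + 1) * W x) = (ℓ i + 1) * (ℓ x * W x) := by ring
            _ < (ℓ i + 1) * W k' := (Nat.mul_lt_mul_left (Nat.succ_pos _)).2 hlt
    have := hmax _ hP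
    rw [Finset.card_insert_of_notMem hiU'] at this
    omega

theorem t_RED : S_RED := by
  intro ι _ G _ r a ℓ W V I Z M ha hM hr hW hV m₀
  classical
  set s := dg a I m₀ with hs
  set p := ∏ k ∈ I, r k ^ m₀ k with hp
  -- bounded potential
  have hbd : ∀ m : ι → ℕ, dg a I m = s → dg W I m ≤ ∑ k ∈ I, s * W k := by
    intro m hm
    refine Finset.sum_le_sum fun k hk => Nat.mul_le_mul_right _ ?_
    calc m k ≤ m k * a k := Nat.le_mul_of_pos_right _ (ha k hk)
      _ ≤ dg a I m := le_dg a I m hk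
      _ = s := hm
  have hfin : {n | ∃ m : ι → ℕ, (dg a I m = s ∧ ∏ k ∈ I, r k ^ m k = p ∧
      dg V I m₀ ≤ dg V I m) ∧ dg W I m = n}.Finite := by
    refine Set.Finite.subset (Set.finite_le_nat (∑ k ∈ I, s * W k)) ?_
    rintro n ⟨m, hm, rfl⟩
    exact hbd m hm.1
  have hn0 : dg W I m₀ ∈ {n | ∃ m : ι → ℕ, (dg a I m = s ∧ ∏ k ∈ I, r k ^ m k = p ∧
      dg V I m₀ ≤ dg V I m) ∧ dg W I m = n} := ⟨m₀, ⟨hs.symm, hp.symm, le_rfl⟩, rfl⟩
  obtain ⟨n, ⟨m, ⟨hm, hmp, hmV⟩, hmn⟩, hn⟩ := hfin.exists_maximal ⟨_, hn0⟩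
  have hn' : ∀ m' : ι → ℕ, dg a I m' = s → ∏ k ∈ I, r k ^ m' k = p →
      dg V I m₀ ≤ dg V I m' → dg W I m' ≤ dg W I m := by
    intro m' h1 h2 h3
    by_contra hlt
    push Not at hlt
    have := hn (y := dg W I m') ⟨m', ⟨h1, h2, h3⟩, rfl⟩ (by rw [← hmn]; exact hlt.le)
    omega
  refine ⟨m, hm, hmp, hn' m₀ hs.symm hp.symm le_rfl, hmV, fun i hi' => ?_⟩
  have hi := (Finset.mem_sdiff.1 hi').1
  by_contra hlt
  push Not at hlt
  -- the new representation
  set m' : ι → ℕ := fun x => (if x = i then m x - ℓ i else m x) + M i x with hm'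
  have e2 : ∀ g : ι → ℕ, dg g I m' + ℓ i * g i = dg g I m + dg g I (M i) := by
    intro g
    have h1 : dg g I m' = dg g I (fun x => if x = i then m x - ℓ i else m x) + dg g I (M i) :=
      dg_add g I _ _
    rw [h1, ← dg_sub_single g I m hi hlt]
    ring
  have h3 : dg a I m' = s := by
    have := e2 a
    rw [hM i hi', hm] at this
    omega
  have h3' : ∏ x ∈ I, r x ^ m' x = p := by
    have h5 : (∏ x ∈ I, r x ^ (if x = i then m x - ℓ i else m x)) * r i ^ ℓ i =
        ∏ x ∈ I, r x ^ m x := by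
      rw [← Finset.mul_prod_erase _ _ hi,
        ← Finset.mul_prod_erase (a := i) (f := fun x => r x ^ m x) _ hi]
      have h6 : ∏ x ∈ I.erase i, r x ^ (if x = i then m x - ℓ i else m x) =
          ∏ x ∈ I.erase i, r x ^ m x := by
        refine Finset.prod_congr rfl fun x hx => ?_
        rw [if_neg (Finset.ne_of_mem_erase hx)]
      rw [h6, if_pos rfl]
      have h7 : r i ^ (m i - ℓ i) * r i ^ ℓ i = r i ^ m i := by
        rw [← pow_add, Nat.sub_add_cancel hlt]
      rw [← h7]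
      rw [mul_right_comm]
    simp only [hm', pow_add, Finset.prod_mul_distrib]
    rw [hr i hi', h5, hmp]
  have h4 : dg V I m₀ ≤ dg V I m' := by
    have h5 := e2 V
    have h6 := hV i hi'
    omega
  have h5 : dg W I m' ≤ dg W I m := hn' m' h3 h3' h4
  have h6 := e2 W
  have h7 := hW i hi'
  omega

end Pool.Agent.K3h33.FG
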